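import Mathlib
import Pool.Agent.V11128.CircSound

set_option autoImplicit false

/-!
# A cyclically 5-edge-connected cubic graph of genus 1 without a circuit-faced embedding of genus 1
-/

namespace Pool.Agent.Results.MP_f8ee93_co.CyclicallyFive

open Pool.Agent.V11128.Circ

/-- A rotation system of `G`: a permutation of the darts (directed edges) of `G` whose cycles are
exactly the sets of darts leaving a common vertex. -/
structure RotationSystem {V : Type*} (G : SimpleGraph V) where
  /-- the next dart around the initial vertex -/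
  rot : Equiv.Perm G.Dart
  /-- the cycles are the vertex stars -/
  sameCycle_iff : ∀ d d' : G.Dart, rot.SameCycle d d' ↔ d.fst = d'.fst

/-- The reversal of darts. -/
def revPerm {V : Type*} (G : SimpleGraph V) : Equiv.Perm G.Dart where
  toFun d := d.symm
  invFun d := d.symm
  left_inv d := d.symm_symm
  right_inv d := d.symm_symm

/-- Face tracing: after the dart `d` the boundary walk of the region continues with the dart that
follows the reversal of `d` in the rotation at the head of `d`. -/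
def RotationSystem.face {V : Type*} {G : SimpleGraph V} (ρ : RotationSystem G) :
    Equiv.Perm G.Dart := (revPerm G).trans ρ.rot

/-- The number of regions: the number of cycles of the face tracing permutation. -/
noncomputable def RotationSystem.numFaces {V : Type*} {G : SimpleGraph V}
    (ρ : RotationSystem G) : ℕ := Nat.card (Quotient (Equiv.Perm.SameCycle.setoid ρ.face))

/-- The embedding given by `ρ` is in the orientable surface of genus `g` (`G` connected):
`|V| - |E| + |F| = 2 - 2 g`. -/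
def RotationSystem.HasGenus {V : Type*} {G : SimpleGraph V} (ρ : RotationSystem G) (g : ℕ) : Prop :=
  (Nat.card V : ℤ) - (G.edgeSet.ncard : ℤ) + (ρ.numFaces : ℤ) = 2 - 2 * (g : ℤ)

/-- The genus of a connected graph. -/
noncomputable def graphGenus {V : Type*} (G : SimpleGraph V) : ℕ :=
  sInf {g | ∃ ρ : RotationSystem G, ρ.HasGenus g}

/-- The edges of `G` with one end in `S` and one end outside `S`. -/
def cut {V : Type*} (G : SimpleGraph V) (S : Set V) : Set (Sym2 V) :=
  {e ∈ G.edgeSet | ∃ u ∈ S, ∃ v ∉ S, e = s(u, v)}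

/-! ### The graph -/

theorem hv_lt {x : ℕ} (hx : x < 54) : hv x < 18 := (tab_lt x hx).1

/-- the `j`-th neighbour of `a` -/
def nbF (a : Fin 18) (j : Fin 3) : Fin 18 := ⟨hv (3 * a.1 + j.1), hv_lt (by omega)⟩

/-- The graph. -/
def H : SimpleGraph (Fin 18) where
  Adj a b := ∃ j : Fin 3, nbF a j = b
  symm := ⟨by decide +kernel⟩
  loopless := ⟨by decide +kernel⟩

theorem dart_adj (x : Fin 54) :
    H.Adj ⟨x.1 / 3, by omega⟩ (nbF ⟨x.1 / 3, by omega⟩ ⟨x.1 % 3, by omega⟩) := ⟨_, rfl⟩

/-- the dart with number `x` -/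
def D (x : Fin 54) : H.Dart :=
  ⟨(⟨x.1 / 3, by omega⟩, nbF ⟨x.1 / 3, by omega⟩ ⟨x.1 % 3, by omega⟩), dart_adj x⟩

theorem D_fst (x : Fin 54) : (D x).fst.1 = x.1 / 3 := rfl
theorem D_snd (x : Fin 54) : (D x).snd.1 = hv x.1 := by
  show hv (3 * (x.1 / 3) + x.1 % 3) = hv x.1
  congr 1
  omega

theorem D_inj_aux : ∀ x y : Fin 54, x.1 / 3 = y.1 / 3 → hv x.1 = hv y.1 → x = y := by
  decide +kernel

theorem D_bij : Function.Bijective D := by
  constructor
  · intro x y h
    apply D_inj_aux
    · rw [← D_fst, ← D_fst, h]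
    · rw [← D_snd, ← D_snd, h]
  · rintro ⟨⟨a, b⟩, j, hj⟩
    refine ⟨⟨3 * a.1 + j.1, by omega⟩, ?_⟩
    apply SimpleGraph.Dart.ext
    apply Prod.ext
    · apply Fin.ext
      show (3 * a.1 + j.1) / 3 = a.1
      omega
    · rw [← hj]
      apply Fin.ext
      show hv _ = hv _
      congr 1
      show 3 * ((3 * a.1 + j.1) / 3) + (3 * a.1 + j.1) % 3 = 3 * a.1 + j.1
      omega

/-- the numbering as an equivalence -/
noncomputable def E : Fin 54 ≃ H.Dart := Equiv.ofBijective D D_bij

theorem E_apply (x : Fin 54) : E x = D x := rfl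

/-- reversal on numbers -/
def rvF (x : Fin 54) : Fin 54 := ⟨rv x.1, (tab_lt x.1 x.2).2.2.2⟩

theorem rv_aux : ∀ x : Fin 54, rv x.1 / 3 = hv x.1 ∧ hv (rv x.1) = x.1 / 3 := by decide +kernel

theorem D_rv (x : Fin 54) : (D x).symm = D (rvF x) := by
  apply SimpleGraph.Dart.ext
  apply Prod.ext
  · apply Fin.ext
    show (D x).snd.1 = (D (rvF x)).fst.1
    rw [D_snd, D_fst]
    exact (rv_aux x).1.symm
  · apply Fin.ext
    show (D x).fst.1 = (D (rvF x)).snd.1
    rw [D_snd, D_fst]
    exact (rv_aux x).2.symm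

/-! ### Rotation systems as bit vectors -/

theorem exists_bits (ρ : RotationSystem H) :
    ∃ s : ℕ → Bool, ∀ x : Fin 54, ((E.symm (ρ.face (E x)) : Fin 54) : ℕ) = phi s x.1 := by
  classical
  set r : Fin 54 → Fin 54 := fun y => E.symm (ρ.rot (E y)) with hr
  have r1 : ∀ y : Fin 54, (r y).1 / 3 = y.1 / 3 := by
    intro y
    have h1 : ρ.rot.SameCycle (E y) (ρ.rot (E y)) := ⟨1, by simp⟩
    have h2 := (ρ.sameCycle_iff _ _).1 h1
    have h3 : E (r y) = ρ.rot (E y) := by simp [hr]
    rw [← h3, E_apply, E_apply] at h2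
    have h4 := congrArg Fin.val h2
    rw [D_fst, D_fst] at h4
    exact h4.symm
  have r2 : Function.Injective r := by
    intro a b h
    exact E.injective (ρ.rot.injective (E.symm.injective h))
  have r3 : ∀ y : Fin 54, r y ≠ y := by
    intro y hy
    have h0 : ρ.rot (E y) = E y := by
      have h3 : E (r y) = ρ.rot (E y) := by simp [hr]
      rw [← h3, hy]
    obtain ⟨z, hz1, hz2⟩ : ∃ z : Fin 54, z ≠ y ∧ z.1 / 3 = y.1 / 3 := by
      by_cases h : y.1 % 3 = 0
      · exact ⟨⟨y.1 + 1, by omega⟩, fun h' => by have := congrArg Fin.val h'; simp at this,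
          by show (y.1 + 1) / 3 = _; omega⟩
      · exact ⟨⟨y.1 - 1, by omega⟩, fun h' => by have := congrArg Fin.val h'; simp at this; omega,
          by show (y.1 - 1) / 3 = _; omega⟩
    have h5 : ρ.rot.SameCycle (E y) (E z) := by
      rw [ρ.sameCycle_iff]
      apply Fin.ext
      rw [E_apply, E_apply, D_fst, D_fst, hz2]
    obtain ⟨i, hi⟩ := h5
    have h6 : (ρ.rot ^ i) (E y) = E y := Equiv.Perm.zpow_apply_eq_self_of_apply_eq_self h0 i
    rw [h6] at hi
    exact hz1 (E.injective hi).symm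
  refine ⟨fun v => decide (∃ h : 3 * v < 54, (r ⟨3 * v, h⟩).1 = 3 * v + 1), fun x => ?_⟩
  have hf : E.symm (ρ.face (E x)) = r (rvF x) := by
    show E.symm (ρ.rot (E x).symm) = _
    rw [E_apply, D_rv]
    rfl
  rw [hf]
  obtain ⟨t1, t2, t3⟩ := tabs x.1 x.2
  set y := rvF x with hy
  have hyv : y.1 = rv x.1 := rfl
  rw [← hyv] at t1 t2 t3
  unfold phi
  have hv54 : 3 * hv x.1 < 54 := by have := y.2; omega
  have hlt := y.2
  set v := hv x.1 with hv'
  let a : Fin 54 := ⟨3 * v, by omega⟩
  let b : Fin 54 := ⟨3 * v + 1, by omega⟩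
  let c : Fin 54 := ⟨3 * v + 2, by omega⟩
  have a1 := r1 a
  have b1 := r1 b
  have c1 := r1 c
  have a3 : (r a).1 ≠ 3 * v := fun h => r3 a (Fin.ext h)
  have b3 : (r b).1 ≠ 3 * v + 1 := fun h => r3 b (Fin.ext h)
  have c3 : (r c).1 ≠ 3 * v + 2 := fun h => r3 c (Fin.ext h)
  have ab : (r a).1 ≠ (r b).1 := fun h => by
    have := congrArg Fin.val (r2 (Fin.ext h)); simp [a, b] at this
  have ac : (r a).1 ≠ (r c).1 := fun h => by
    have := congrArg Fin.val (r2 (Fin.ext h)); simp [a, c] at this
  have bc : (r b).1 ≠ (r c).1 := fun h => by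
    have := congrArg Fin.val (r2 (Fin.ext h)); simp [b, c] at this
  have a1' : (r a).1 / 3 = 3 * v / 3 := a1
  have b1' : (r b).1 / 3 = (3 * v + 1) / 3 := b1
  have c1' : (r c).1 / 3 = (3 * v + 2) / 3 := c1
  have hcase : y = a ∨ y = b ∨ y = c := by
    have : y.1 = 3 * v ∨ y.1 = 3 * v + 1 ∨ y.1 = 3 * v + 2 := by omega
    rcases this with h | h | h
    · exact Or.inl (Fin.ext h)
    · exact Or.inr (Or.inl (Fin.ext h))
    · exact Or.inr (Or.inr (Fin.ext h))
  show (r y).1 = bif (decide (∃ h : 3 * v < 54, (r ⟨3 * v, h⟩).1 = 3 * v + 1))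
    then n1 x.1 else n0 x.1
  by_cases hs : ∃ h : 3 * v < 54, (r ⟨3 * v, h⟩).1 = 3 * v + 1
  · rw [decide_eq_true hs, cond_true, t1]
    obtain ⟨_, hs⟩ := hs
    have hs' : (r a).1 = 3 * v + 1 := hs
    rcases hcase with h | h | h
    · rw [h]
      show _ = 3 * (3 * v / 3) + (3 * v % 3 + 1) % 3
      omega
    · rw [h]
      show _ = 3 * ((3 * v + 1) / 3) + ((3 * v + 1) % 3 + 1) % 3
      omega
    · rw [h]
      show _ = 3 * ((3 * v + 2) / 3) + ((3 * v + 2) % 3 + 1) % 3
      omega
  · rw [decide_eq_false hs, cond_false, t2]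
    have hs' : (r a).1 ≠ 3 * v + 1 := fun h => hs ⟨a.2, h⟩
    rcases hcase with h | h | h
    · rw [h]
      show _ = 3 * (3 * v / 3) + (3 * v % 3 + 2) % 3
      omega
    · rw [h]
      show _ = 3 * ((3 * v + 1) / 3) + ((3 * v + 1) % 3 + 2) % 3
      omega
    · rw [h]
      show _ = 3 * ((3 * v + 2) / 3) + ((3 * v + 2) % 3 + 2) % 3
      omega

theorem iter_bits {ρ : RotationSystem H} {s : ℕ → Bool}
    (hs : ∀ x : Fin 54, ((E.symm (ρ.face (E x)) : Fin 54) : ℕ) = phi s x.1) (i : ℕ) :
    ∀ x : Fin 54, ∃ h : (phi s)^[i] x.1 < 54, (ρ.face ^ i) (E x) = E ⟨(phi s)^[i] x.1, h⟩ := by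
  induction i with
  | zero => intro x; exact ⟨x.2, rfl⟩
  | succ i ih =>
    intro x
    obtain ⟨h, he⟩ := ih (E.symm (ρ.face (E x)))
    have h1 : (phi s)^[i + 1] x.1 = (phi s)^[i] (E.symm (ρ.face (E x))).1 := by
      rw [Function.iterate_succ_apply, hs]
    refine ⟨by rw [h1]; exact h, ?_⟩
    have h2 : (ρ.face ^ (i + 1)) (E x) = (ρ.face ^ i) (ρ.face (E x)) := by
      rw [pow_succ]; rfl
    rw [h2]
    have h3 : ρ.face (E x) = E (E.symm (ρ.face (E x))) := by simp
    refine ((congrArg _ h3).trans he).trans ?_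
    congr 1
    exact Fin.ext h1.symm

theorem same_of_iter {ρ : RotationSystem H} {s : ℕ → Bool}
    (hs : ∀ x : Fin 54, ((E.symm (ρ.face (E x)) : Fin 54) : ℕ) = phi s x.1) {i : ℕ}
    {x y : Fin 54} (h : (phi s)^[i] x.1 = y.1) : ρ.face.SameCycle (E x) (E y) := by
  obtain ⟨h1, h2⟩ := iter_bits hs i x
  refine ⟨i, ?_⟩
  rw [zpow_natCast, h2]
  congr 1
  exact Fin.ext h

/-- every rotation system with at least 8 faces has a face traversing an edge twice -/
theorem bad_of_faces (ρ : RotationSystem H) (hF : 8 ≤ ρ.numFaces) :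
    ∃ d : H.Dart, ρ.face.SameCycle d d.symm := by
  classical
  obtain ⟨s, hs⟩ := exists_bits ρ
  rcases concl s with ⟨d, hd, i, hi⟩ | ⟨A, hA, hAx⟩
  · refine ⟨E ⟨d, hd⟩, ?_⟩
    rw [E_apply, D_rv]
    exact same_of_iter hs (x := ⟨d, hd⟩) (y := rvF ⟨d, hd⟩) hi
  · exfalso
    have hcard : ρ.numFaces ≤ A.card := by
      unfold RotationSystem.numFaces
      have hmin : ∀ q : Quotient (Equiv.Perm.SameCycle.setoid ρ.face),
          ∃ x : Fin 54, x.1 ∈ A ∧ Quotient.mk (Equiv.Perm.SameCycle.setoid ρ.face) (E x) = q := by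
        intro q
        let P : ℕ → Prop := fun n => ∃ h : n < 54,
          Quotient.mk (Equiv.Perm.SameCycle.setoid ρ.face) (E ⟨n, h⟩) = q
        have hex : ∃ n, P n := by
          obtain ⟨d, hd⟩ := Quotient.exists_rep q
          refine ⟨(E.symm d).1, (E.symm d).2, ?_⟩
          simpa using hd
        have hm := Nat.find_spec hex
        obtain ⟨h1, h2⟩ := hm
        refine ⟨⟨Nat.find hex, h1⟩, ?_, h2⟩
        by_contra hnot
        obtain ⟨i, hi⟩ := hAx _ h1 hnot
        refine Nat.find_min hex hi ⟨by omega, Eq.trans (Quotient.sound ?_) h2⟩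
        exact (same_of_iter hs (i := i) (x := ⟨Nat.find hex, h1⟩)
          (y := ⟨(phi s)^[i] (Nat.find hex), by omega⟩) rfl).symm
      choose g hg1 hg2 using hmin
      have hginj : Function.Injective (fun q => (⟨(g q).1, hg1 q⟩ : A)) := by
        intro q q' h
        have h1 : (g q).1 = (g q').1 := congrArg (fun z : A => z.1) h
        have h2 : g q = g q' := Fin.ext h1
        rw [← hg2 q, ← hg2 q', h2]
      have := Nat.card_le_card_of_injective _ hginj
      simpa using this
    omega

/-! ### No planar embedding -/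

/-- successor with prescribed bit -/
def stepb (b : Bool) (x : ℕ) : ℕ := bif b then n1 x else n0 x

theorem short : ∀ x : Fin 54, ∀ b1 b2 b3 b4 : Bool, stepb b1 x.1 ≠ x.1 ∧
    stepb b2 (stepb b1 x.1) ≠ x.1 ∧ stepb b3 (stepb b2 (stepb b1 x.1)) ≠ x.1 ∧
    stepb b4 (stepb b3 (stepb b2 (stepb b1 x.1))) ≠ x.1 := by decide +kernel

theorem faces_le (ρ : RotationSystem H) : ρ.numFaces ≤ 10 := by
  classical
  obtain ⟨s, hs⟩ := exists_bits ρ
  have hphi : ∀ x, phi s x = stepb (s (hv x)) x := fun x => rfl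
  have hne : ∀ x : Fin 54, ∀ i, 1 ≤ i → i ≤ 4 → (phi s)^[i] x.1 ≠ x.1 := by
    intro x i h1 h4
    have h := short x (s (hv x.1)) (s (hv (phi s x.1))) (s (hv (phi s (phi s x.1))))
      (s (hv (phi s (phi s (phi s x.1)))))
    interval_cases i
    · exact h.1
    · exact h.2.1
    · exact h.2.2.1
    · exact h.2.2.2
  have hfix : ∀ d : H.Dart, ∀ i, 1 ≤ i → i ≤ 4 → (ρ.face ^ i) d ≠ d := by
    intro d i h1 h4 h
    obtain ⟨x, rfl⟩ := E.surjective d
    obtain ⟨h5, h6⟩ := iter_bits hs i x
    rw [h6] at h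
    exact hne x i h1 h4 (congrArg Fin.val (E.injective h))
  have : Fintype (Quotient (Equiv.Perm.SameCycle.setoid ρ.face)) := Fintype.ofFinite _
  unfold RotationSystem.numFaces
  rw [Nat.card_eq_fintype_card]
  let f : H.Dart → Quotient (Equiv.Perm.SameCycle.setoid ρ.face) := fun d => Quotient.mk _ d
  have hcard : Fintype.card H.Dart = 54 := by
    rw [← Fintype.card_congr E, Fintype.card_fin]
  have h1 : (Finset.univ : Finset H.Dart).card =
      ∑ q : Quotient (Equiv.Perm.SameCycle.setoid ρ.face),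
        (Finset.univ.filter (fun d => f d = q)).card :=
    Finset.card_eq_sum_card_fiberwise (fun _ _ => Finset.mem_univ _)
  have h2 : ∀ q : Quotient (Equiv.Perm.SameCycle.setoid ρ.face),
      5 ≤ (Finset.univ.filter (fun d => f d = q)).card := by
    intro q
    obtain ⟨d, rfl⟩ := Quotient.exists_rep q
    have hsub : ((Finset.range 5).image (fun i => (ρ.face ^ i) d)) ⊆
        Finset.univ.filter (fun d' => f d' = Quotient.mk _ d) := by
      intro d' hd'
      obtain ⟨i, _, rfl⟩ := Finset.mem_image.1 hd'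
      refine Finset.mem_filter.2 ⟨Finset.mem_univ _, Quotient.sound ?_⟩
      exact (show ρ.face.SameCycle d ((ρ.face ^ i) d) from ⟨i, by simp⟩).symm
    have hinj : Set.InjOn (fun i => (ρ.face ^ i) d) (Finset.range 5 : Set ℕ) := by
      intro i hi j hj hij
      rw [Finset.mem_coe, Finset.mem_range] at hi hj
      simp only at hij
      wlog hlt : i ≤ j generalizing i j
      · exact (this hj hi hij.symm (by omega)).symm
      by_contra hne'
      have h3 : (ρ.face ^ j) d = (ρ.face ^ (j - i)) ((ρ.face ^ i) d) := by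
        rw [← Equiv.Perm.mul_apply, ← pow_add]
        congr 2
        omega
      rw [h3] at hij
      exact hfix _ (j - i) (by omega) (by omega) hij.symm
    calc 5 = ((Finset.range 5).image (fun i => (ρ.face ^ i) d)).card := by
          rw [Finset.card_image_of_injOn hinj, Finset.card_range]
      _ ≤ _ := Finset.card_le_card hsub
  have h3 : Fintype.card (Quotient (Equiv.Perm.SameCycle.setoid ρ.face)) * 5 ≤ 54 := by
    rw [← hcard, ← Finset.card_univ (α := H.Dart), h1, ← Finset.card_univ, ← smul_eq_mul]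
    exact Finset.card_nsmul_le_sum _ _ _ (fun q _ => h2 q)
  omega

/-! ### An embedding in the torus -/

/-- the rotation -/
def r0 (y : Fin 54) : Fin 54 :=
  ⟨(3 * (y.1 / 3) + (y.1 % 3 + (bif bit 52018 (y.1 / 3) then 1 else 2)) % 3) % 54, by omega⟩

theorem r0_cube : ∀ y, r0 (r0 (r0 y)) = y := by decide +kernel
theorem r0_div : ∀ y, (r0 y).1 / 3 = y.1 / 3 := by decide +kernel
theorem r0_orbit : ∀ x y : Fin 54, x.1 / 3 = y.1 / 3 → x = y ∨ r0 x = y ∨ r0 (r0 x) = y := by
  decide +kernel

/-- the rotation as a permutation -/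
def r0P : Equiv.Perm (Fin 54) where
  toFun := r0
  invFun y := r0 (r0 y)
  left_inv := r0_cube
  right_inv := r0_cube

theorem r0_zpow (i : ℤ) : ∀ y : Fin 54, ((r0P ^ i) y).1 / 3 = y.1 / 3 := by
  induction i using Int.induction_on with
  | zero => intro y; rfl
  | succ i ih =>
    intro y
    rw [zpow_add_one]
    exact (ih (r0 y)).trans (r0_div y)
  | pred i ih =>
    intro y
    rw [zpow_sub_one]
    refine (ih (r0 (r0 y))).trans ?_
    rw [r0_div, r0_div]

/-- a rotation system with nine regions -/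
noncomputable def ρ0 : RotationSystem H where
  rot := E.permCongr r0P
  sameCycle_iff := by
    intro d d'
    obtain ⟨x, rfl⟩ := E.surjective d
    obtain ⟨y, rfl⟩ := E.surjective d'
    have hpow : ∀ i : ℤ, ((E.permCongr r0P) ^ i) (E x) = E ((r0P ^ i) x) := by
      intro i
      have : (E.permCongr r0P) ^ i = E.permCongr (r0P ^ i) := by
        have := map_zpow (E.permCongrHom) r0P i
        exact this.symm
      rw [this]
      simp [Equiv.permCongr_apply]
    constructor
    · rintro ⟨i, hi⟩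
      rw [hpow] at hi
      have h1 := E.injective hi
      apply Fin.ext
      rw [E_apply, E_apply, D_fst, D_fst, ← h1, r0_zpow]
    · intro h
      have h1 := congrArg Fin.val h
      rw [E_apply, E_apply, D_fst, D_fst] at h1
      rcases r0_orbit x y h1 with h2 | h2 | h2
      · exact ⟨0, by rw [hpow, ← h2]; rfl⟩
      · exact ⟨1, by rw [hpow, ← h2]; rfl⟩
      · exact ⟨2, by rw [hpow, ← h2]; rfl⟩

/-- its face successor -/
def f0 (x : Fin 54) : Fin 54 := r0 (rvF x)

/-- labels of the faces -/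
def lab (x : Fin 54) : Fin 9 :=
  ⟨dig 4281232655489595066853384350758047589531417884980483069007198657970286303982453233197243599167552 x.1 % 9, by omega⟩

theorem lab_f0 : ∀ x, lab (f0 x) = lab x := by decide +kernel
/-- representatives of the faces -/
def rep (q : Fin 9) : Fin 54 := ![0, 1, 2, 5, 10, 17, 22, 29, 35] q
theorem lab_rep : ∀ q, lab (rep q) = q := by decide +kernel
theorem to_rep : ∀ x : Fin 54, ∃ i : Fin 20, f0^[i.1] x = rep (lab x) := by decide +kernel

theorem face0 (x : Fin 54) : ρ0.face (E x) = E (f0 x) := by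
  show E.permCongr r0P (E x).symm = _
  rw [E_apply, D_rv, ← E_apply, Equiv.permCongr_apply, Equiv.symm_apply_apply]
  rfl

theorem face0_iter (i : ℕ) : ∀ x : Fin 54, (ρ0.face ^ i) (E x) = E (f0^[i] x) := by
  induction i with
  | zero => intro x; rfl
  | succ i ih =>
    intro x
    rw [pow_succ, Equiv.Perm.mul_apply, face0, ih, Function.iterate_succ_apply]

theorem lab_zpow (i : ℤ) : ∀ x : Fin 54, lab (E.symm ((ρ0.face ^ i) (E x))) = lab x := by
  have hinv : ∀ d, lab (E.symm (ρ0.face d)) = lab (E.symm d) := by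
    intro d
    obtain ⟨x, rfl⟩ := E.surjective d
    rw [face0, Equiv.symm_apply_apply, Equiv.symm_apply_apply, lab_f0]
  suffices h : ∀ d, lab (E.symm ((ρ0.face ^ i) d)) = lab (E.symm d) by
    intro x
    rw [h, Equiv.symm_apply_apply]
  induction i using Int.induction_on with
  | zero => intro d; rfl
  | succ i ih =>
    intro d
    rw [zpow_add_one, Equiv.Perm.mul_apply, ih, hinv]
  | pred i ih =>
    intro d
    rw [zpow_sub_one, Equiv.Perm.mul_apply, ih]
    have := hinv (ρ0.face⁻¹ d)
    have h9 : ρ0.face (ρ0.face⁻¹ d) = d := ρ0.face.apply_symm_apply d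
    rw [h9] at this
    exact this.symm

theorem numFaces0 : ρ0.numFaces = 9 := by
  unfold RotationSystem.numFaces
  have e : Quotient (Equiv.Perm.SameCycle.setoid ρ0.face) ≃ Fin 9 :=
    { toFun := Quotient.lift (fun d => lab (E.symm d)) (by
        rintro d d' ⟨i, hi⟩
        obtain ⟨x, rfl⟩ := E.surjective d
        show lab (E.symm (E x)) = lab (E.symm d')
        rw [← hi, lab_zpow, Equiv.symm_apply_apply])
      invFun := fun q => Quotient.mk _ (E (rep q))
      left_inv := by
        intro q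
        obtain ⟨d, rfl⟩ := Quotient.exists_rep q
        obtain ⟨x, rfl⟩ := E.surjective d
        obtain ⟨i, hi⟩ := to_rep x
        refine Quotient.sound ?_
        show ρ0.face.SameCycle (E (rep (lab (E.symm (E x))))) (E x)
        rw [Equiv.symm_apply_apply]
        refine Equiv.Perm.SameCycle.symm ⟨(i.1 : ℤ), ?_⟩
        rw [zpow_natCast, face0_iter, hi]
      right_inv := by
        intro q
        show lab (E.symm (E (rep q))) = q
        rw [Equiv.symm_apply_apply, lab_rep] }
  rw [Nat.card_congr e, Nat.card_eq_fintype_card, Fintype.card_fin]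

theorem edges_card : H.edgeSet.ncard = 27 := by
  classical
  have h1 : Fintype.card H.Dart = 2 * H.edgeFinset.card := H.dart_card_eq_twice_card_edges
  have h2 : Fintype.card H.Dart = 54 := by
    rw [← Fintype.card_congr E, Fintype.card_fin]
  have h3 : H.edgeSet.ncard = H.edgeFinset.card := by
    rw [← SimpleGraph.coe_edgeFinset, Set.ncard_coe_finset]
  omega

theorem hasGenus_iff (ρ : RotationSystem H) (g : ℕ) :
    ρ.HasGenus g ↔ (ρ.numFaces : ℤ) = 11 - 2 * (g : ℤ) := by
  unfold RotationSystem.HasGenus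
  rw [edges_card, Nat.card_eq_fintype_card, Fintype.card_fin]
  constructor <;> intro h <;> push_cast at * <;> linarith

theorem genus_H : graphGenus H = 1 := by
  have h0 : ρ0.HasGenus 1 := by
    rw [hasGenus_iff, numFaces0]
    norm_num
  have hle : graphGenus H ≤ 1 := Nat.sInf_le ⟨ρ0, h0⟩
  have hmem : graphGenus H ∈ {g | ∃ ρ : RotationSystem H, ρ.HasGenus g} :=
    Nat.sInf_mem ⟨1, ρ0, h0⟩
  obtain ⟨ρ, hρ⟩ := hmem
  rw [hasGenus_iff] at hρ
  have := faces_le ρ
  omega

/-! ### Connectivity -/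

theorem nb_adj (k : Fin 18) (j : Fin 3) : H.Adj k (nbF k j) := ⟨j, rfl⟩

open Classical in
theorem cut_card (S : Set (Fin 18)) :
    ∑ i ∈ Finset.range 18, inc (fun v => decide (∃ h : v < 18, (⟨v, h⟩ : Fin 18) ∈ S)) i ≤
      (cut H S).ncard := by
  set s : ℕ → Bool := fun v => decide (∃ h : v < 18, (⟨v, h⟩ : Fin 18) ∈ S) with hs
  have hsv : ∀ v : Fin 18, s v.1 = true ↔ v ∈ S := by
    intro v
    simp only [hs, decide_eq_true_eq]
    exact ⟨fun ⟨_, h⟩ => h, fun h => ⟨v.2, h⟩⟩
  let P : Finset (Fin 18 × Fin 3) := Finset.univ.filter (fun p =>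
    (Nat.blt (hv (3 * p.1.1 + p.2.1)) p.1.1 && xor (s (hv (3 * p.1.1 + p.2.1))) (s p.1.1)) = true)
  have hP : ∑ i ∈ Finset.range 18, inc s i = P.card := by
    rw [Finset.card_filter, ← Finset.univ_product_univ, Finset.sum_product, Finset.sum_range]
    apply Finset.sum_congr rfl
    intro k _
    rw [Fin.sum_univ_three]
    unfold inc fe
    simp only [cond_eq_ite]
    rfl
  rw [hP]
  let φ : Fin 18 × Fin 3 → Sym2 (Fin 18) := fun p => s(p.1, nbF p.1 p.2)
  have hinj : Set.InjOn φ (P : Set (Fin 18 × Fin 3)) := by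
    rintro ⟨a, i⟩ ha ⟨b, j⟩ hb hab
    rw [Finset.mem_coe, Finset.mem_filter, Bool.and_eq_true] at ha hb
    have ha' : (nbF a i).1 < a.1 := blt'.1 ha.2.1
    have hb' : (nbF b j).1 < b.1 := blt'.1 hb.2.1
    simp only [φ, Sym2.eq_iff] at hab
    rcases hab with ⟨h1, h2⟩ | ⟨h1, h2⟩
    · subst h1
      have hinj2 : ∀ a : Fin 18, ∀ i j : Fin 3, nbF a i = nbF a j → i = j := by decide +kernel
      rw [hinj2 a i j h2]
    · exfalso
      have h3 := congrArg Fin.val h1
      have h4 := congrArg Fin.val h2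
      omega
  have himg : φ '' (P : Set (Fin 18 × Fin 3)) ⊆ cut H S := by
    rintro e ⟨⟨a, i⟩, ha, rfl⟩
    rw [Finset.mem_coe, Finset.mem_filter, Bool.and_eq_true] at ha
    have hx := ha.2.2
    refine ⟨nb_adj a i, ?_⟩
    have hx' : xor (s (nbF a i).1) (s a.1) = true := hx
    by_cases h1 : a ∈ S
    · refine ⟨a, h1, nbF a i, ?_, rfl⟩
      intro h2
      rw [(hsv a).2 h1, (hsv _).2 h2] at hx'
      exact absurd hx' (by decide)
    · refine ⟨nbF a i, ?_, a, h1, Sym2.eq_swap⟩
      have h3 : s a.1 = false := by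
        rw [← Bool.not_eq_true]
        exact fun h => h1 ((hsv a).1 h)
      rw [h3, Bool.xor_false] at hx'
      exact (hsv _).1 hx'
  calc P.card = (φ '' (P : Set (Fin 18 × Fin 3))).ncard := by
        rw [Set.InjOn.ncard_image hinj, Set.ncard_coe_finset]
    _ ≤ (cut H S).ncard := Set.ncard_le_ncard himg (Set.toFinite _)

open Classical in
theorem size_eq (S : Set (Fin 18)) :
    ((Finset.range 18).filter (fun v => (decide (∃ h : v < 18, (⟨v, h⟩ : Fin 18) ∈ S)) = true)).card
      = S.ncard := by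
  rw [← Set.ncard_coe_finset]
  have : ((((Finset.range 18).filter
      (fun v => (decide (∃ h : v < 18, (⟨v, h⟩ : Fin 18) ∈ S)) = true)) : Finset ℕ) : Set ℕ) =
      (fun v : Fin 18 => v.1) '' S := by
    ext v
    simp only [Finset.coe_filter, Finset.mem_range, decide_eq_true_eq, Set.mem_image]
    constructor
    · rintro ⟨_, h, hS⟩
      exact ⟨_, hS, rfl⟩
    · rintro ⟨w, hw, rfl⟩
      exact ⟨w.2, w.2, hw⟩
  rw [this, Set.ncard_image_of_injective _ Fin.val_injective]

theorem cut_bounds (S : Set (Fin 18)) :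
    (3 ≤ (cut H S).ncard ∨ S.ncard = 0 ∨ S.ncard = 18) ∧
    (5 ≤ (cut H S).ncard ∨ S.ncard ≤ 2 ∨ 16 ≤ S.ncard) := by
  classical
  have h := cut_sound (fun v => decide (∃ h : v < 18, (⟨v, h⟩ : Fin 18) ∈ S))
  have h1 := cut_card S
  have h2 := size_eq S
  rw [h2] at h
  refine ⟨?_, ?_⟩
  · rcases h.1 with h | h | h
    · exact Or.inl (by omega)
    · exact Or.inr (Or.inl h)
    · exact Or.inr (Or.inr h)
  · rcases h.2 with h | h | h
    · exact Or.inl (by omega)
    · exact Or.inr (Or.inl h)
    · exact Or.inr (Or.inr h)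

theorem delete_connected (F : Set (Sym2 (Fin 18))) (hF : F.ncard ≤ 2) :
    (H.deleteEdges F).Connected := by
  have hpre : (H.deleteEdges F).Preconnected := by
    intro u v
    by_contra hnot
    let S : Set (Fin 18) := {w | (H.deleteEdges F).Reachable u w}
    have hu : u ∈ S := SimpleGraph.Reachable.refl u
    have hv' : v ∉ S := hnot
    have hcut : cut H S ⊆ F := by
      rintro e ⟨he, a, ha, b, hb, rfl⟩
      by_contra hne
      apply hb
      have hadj : (H.deleteEdges F).Adj a b := by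
        rw [SimpleGraph.deleteEdges_adj]
        exact ⟨he, hne⟩
      exact SimpleGraph.Reachable.trans ha hadj.reachable
    have h3 := Set.ncard_le_ncard hcut (Set.toFinite _)
    rcases (cut_bounds S).1 with h | h | h
    · omega
    · rw [Set.ncard_eq_zero (Set.toFinite _)] at h
      rw [h] at hu
      exact hu
    · have h5 : S = Set.univ := by
        apply Set.eq_of_subset_of_ncard_le (Set.subset_univ _) _ (Set.toFinite _)
        rw [h, Set.ncard_univ, Nat.card_eq_fintype_card, Fintype.card_fin]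
      exact hv' (by rw [h5]; trivial)
  exact { preconnected := hpre, nonempty := ⟨0⟩ }

theorem cubic (v : Fin 18) : (H.neighborSet v).ncard = 3 := by
  have h1 : H.neighborSet v = Set.range (nbF v) := by
    ext w
    rfl
  have hinj2 : ∀ a : Fin 18, ∀ i j : Fin 3, nbF a i = nbF a j → i = j := by decide +kernel
  have h2 : Function.Injective (nbF v) := fun i j h => hinj2 v i j h
  rw [h1, ← Set.image_univ, Set.ncard_image_of_injective _ h2, Set.ncard_univ,
    Nat.card_eq_fintype_card, Fintype.card_fin]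

/-- There is a connected bridgeless cubic graph `G` (with 18 vertices, of genus 1, and such that
every set `S` of vertices with `3 ≤ |S|` and `3 ≤ |V \ S|` is left by at least five edges) such
that every embedding of `G` in the orientable surface of genus `γ(G)` has a region whose boundary
walk traverses some edge in both directions. -/
theorem result : ∃ G : SimpleGraph (Fin 18),
    (∀ v, (G.neighborSet v).ncard = 3) ∧ G.Connected ∧
    (∀ e ∈ G.edgeSet, (G.deleteEdges {e}).Connected) ∧
    (∀ S : Set (Fin 18), 3 ≤ S.ncard → 3 ≤ Sᶜ.ncard → 5 ≤ (cut G S).ncard) ∧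
    graphGenus G = 1 ∧ (∃ ρ : RotationSystem G, ρ.HasGenus (graphGenus G)) ∧
    ∀ ρ : RotationSystem G, ρ.HasGenus (graphGenus G) →
      ∃ d : G.Dart, ρ.face.SameCycle d d.symm := by
  refine ⟨H, cubic, ?_, ?_, ?_, genus_H, ?_, ?_⟩
  · have := delete_connected ∅ (by simp)
    rwa [SimpleGraph.deleteEdges_empty] at this
  · intro e _
    exact delete_connected {e} (by rw [Set.ncard_singleton]; omega)
  · intro S h1 h2
    have h3 : S.ncard + Sᶜ.ncard = 18 := by
      rw [Set.ncard_add_ncard_compl, Nat.card_eq_fintype_card, Fintype.card_fin]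
    rcases (cut_bounds S).2 with h | h | h
    · exact h
    · omega
    · omega
  · rw [genus_H]
    exact ⟨ρ0, by rw [hasGenus_iff, numFaces0]; norm_num⟩
  · intro ρ hρ
    rw [genus_H, hasGenus_iff] at hρ
    exact bad_of_faces ρ (by omega)

end Pool.Agent.Results.MP_f8ee93_co.CyclicallyFive
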